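import Pool.Agent.Helper20.Rich.Lower

open scoped ENNReal

namespace Pool.Agent.Results.MP_0687f0_co.LowerBound

open Pool.Agent.Helper20.Rich

/-- Lower bound for the repetition threshold of the class of `d`-ary rich recurrent sequences:
`RT d ≥ 2 + 2 / P_{2d+1}` for every `d`, where `P_n` is the `n`-th Pell number. -/
theorem result : ∀ d : ℕ, 2 + 2 / (pell (2 * d + 1) : ℝ≥0∞) ≤ RT d :=
  fun _ => le_iInf fun _ => le_iInf fun hu => critExp_ge hu.2.1

end Pool.Agent.Results.MP_0687f0_co.LowerBound
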