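import Pool.Agent.Helper77.Odd.OddCompare

open scoped ENNReal

namespace Pool.Agent.Results.MP_0687f0_co.OddUpperBound

open Pool.Agent.Helper20.Rich

/-- Upper bound for the repetition threshold of the class of `d`-ary rich recurrent sequences for
odd `d ≥ 5`: `RT d ≤ 2 + 6 / (7 * 2 ^ (d - 1) - 10)`. Consequently
`RT d < 1 + 1 / (3 - μ)`, where `μ` is the root greater than `2` of `μ ^ d = 2 μ ^ (d - 1) + 1`. -/
theorem result : ∀ d : ℕ, 5 ≤ d → Odd d →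
    RT d ≤ ENNReal.ofReal (2 + 6 / (7 * 2 ^ (d - 1) - 10)) ∧
    ∀ μ : ℝ, 2 < μ → μ ^ d = 2 * μ ^ (d - 1) + 1 →
      RT d < ENNReal.ofReal (1 + 1 / (3 - μ)) := by
  intro d hd ho
  refine ⟨Pool.Agent.Helper77.Odd.RT_odd' hd ho, fun μ h2 hμ => ?_⟩
  refine (Pool.Agent.Helper77.Odd.RT_odd' hd ho).trans_lt ?_
  have h := Pool.Agent.Helper77.Odd.compare hd h2 hμ
  have hN := Pool.Agent.Helper77.Odd.pow_ge_lin (n := d - 1) (by omega)
  have hn : (4 : ℝ) ≤ ((d - 1 : ℕ) : ℝ) := by exact_mod_cast (show 4 ≤ d - 1 by omega)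
  have h0 : (0 : ℝ) < 6 / (7 * 2 ^ (d - 1) - 10) := by
    apply div_pos (by norm_num)
    linarith
  rw [ENNReal.ofReal_lt_ofReal_iff (by linarith)]
  exact h

end Pool.Agent.Results.MP_0687f0_co.OddUpperBound
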