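import Pool.Agent.Helper95.RT.OSharp

open scoped ENNReal

namespace Pool.Agent.Results.MP_0687f0_co.SharpUpperBound

open Pool.Agent.Helper20.Rich

/-- Upper bound for the repetition threshold of the class of `d`-ary rich recurrent sequences:
`RT d ≤ 1 + 1 / (3 - μ)` for every `d ≥ 4`, where `μ` is the root greater than `2` of
`μ ^ d = 2 μ ^ (d - 1) + 1`. -/
theorem result : ∀ d : ℕ, 4 ≤ d → ∀ μ : ℝ, 2 < μ → μ ^ d = 2 * μ ^ (d - 1) + 1 →
    RT d ≤ ENNReal.ofReal (1 + 1 / (3 - μ)) :=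
  fun _ hd _ h2 hμ => RT_all hd h2 hμ

end Pool.Agent.Results.MP_0687f0_co.SharpUpperBound
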